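import Mathlib
import Pool.Agent.H718R3.CZ3

/-!
# MP_09d285_al: a Golod-Shafarevich group in characteristic zero with bounded virtual `b₁`

There is a group that is Golod-Shafarevich in characteristic zero (two generators, infinitely many
relators) all of whose finite index subgroups have first Betti number at most 2.  This is the
negated form of Q1.

Written by helper718.  Route: for a normal subgroup `N` of finite index in a free group `F`, a
homomorphism `N → ℚ` that vanishes on `N ∩ γ_n(F)` is `F`-invariant (the action of the finite group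
`F/N` is semisimple), so at most `dim Hom(N, ℚ)` relators, taken as deep in the lower central series
as we like, kill all but the invariant homomorphisms.  Invariant homomorphisms are restrictions of
multiples of homomorphisms of `F` (transfer).  Add such relators for every `N`.
-/

set_option autoImplicit false

open scoped TensorProduct

namespace Pool.Agent.Results.MP_09d285_al.BoundedVirtualBetti

/-- The degree `D_0(f)` of an element of a free group `F`, with values in `{1, 2, …, ∞}`: the
supremum of the `n` with `f ∈ γ_n F` (`γ_1 F = F`; Mathlib's lower central series starts at 0).  So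
`D_0(f) = n` iff `f ∈ γ_n F` and `f ∉ γ_{n+1} F`. -/
noncomputable def D0 {F : Type} [Group F] (f : F) : ℕ∞ :=
  ⨆ n : ℕ, ⨆ _ : f ∈ (⊤ : Subgroup F).lowerCentralSeries n, ((n + 1 : ℕ) : ℕ∞)

open Classical in
/-- The term `τ ^ D_0(f)`, which is `0` if `D_0(f) = ∞`. -/
noncomputable def term {F : Type} [Group F] (τ : ℝ) (f : F) : ℝ :=
  if D0 f = ⊤ then 0 else τ ^ (D0 f).toNat

/-- The inequality `1 - |X| τ + ∑_{r ∈ R} τ ^ D_0(r) < 0` for a set `R` of relators on `d = |X|`
generators (the sum being convergent). -/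
def Inequality (d : ℕ) (R : Set (FreeGroup (Fin d))) (τ : ℝ) : Prop :=
  Summable (fun r : R => term τ r.1) ∧ 1 - d * τ + ∑' r : R, term τ r.1 < 0

/-- `G` is Golod-Shafarevich in characteristic zero. -/
def IsGSCharZero (G : Type) [Group G] : Prop :=
  ∃ (d : ℕ) (R : Set (FreeGroup (Fin d))), Nonempty (G ≃* PresentedGroup R) ∧
    ∃ τ : ℝ, 0 < τ ∧ τ < 1 ∧ Inequality d R τ

/-- The first Betti number `b₁(H) = dim_ℚ (H/[H,H] ⊗ ℚ)` (as a cardinal number). -/
noncomputable def b1 (H : Type) [Group H] : Cardinal :=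
  Module.rank ℚ (ℚ ⊗[ℤ] Additive (Abelianization H))

theorem le_D0 {F : Type} [Group F] {n : ℕ} {f : F}
    (h : f ∈ (⊤ : Subgroup F).lowerCentralSeries n) : ((n + 1 : ℕ) : ℕ∞) ≤ D0 f :=
  le_iSup₂ (f := fun (n : ℕ) (_ : f ∈ (⊤ : Subgroup F).lowerCentralSeries n) =>
    ((n + 1 : ℕ) : ℕ∞)) n h

theorem term_nonneg {F : Type} [Group F] {τ : ℝ} (h0 : 0 < τ) (f : F) : 0 ≤ term τ f := by
  unfold term
  split_ifs
  · exact le_rfl
  · positivity

theorem term_le {F : Type} [Group F] {τ : ℝ} (h0 : 0 < τ) (h1 : τ < 1) (n : ℕ) (f : F)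
    (h : f ∈ (⊤ : Subgroup F).lowerCentralSeries n) : term τ f ≤ τ ^ (n + 1) := by
  unfold term
  split_ifs with hf
  · positivity
  · apply pow_le_pow_of_le_one h0.le h1.le
    have h2 := le_D0 h
    have h3 : ((n + 1 : ℕ) : ℕ∞).toNat ≤ (D0 f).toNat := ENat.toNat_le_toNat h2 hf
    rwa [ENat.toNat_coe] at h3

/-- finite index subgroups of the presented group -/
theorem b1_le {d : ℕ} (R : Set (FreeGroup (Fin d)))
    (hR : ∀ (N : Subgroup (FreeGroup (Fin d))) (_ : N.Normal) (_ : N.FiniteIndex), R ⊆ N →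
      ∀ f ∈ H718R3.CZ.HQ N, (∀ x : N, (x : FreeGroup (Fin d)) ∈ R → f x = 0) →
        (∀ x : Fin d, f ⟨FreeGroup.of x ^ N.index, N.pow_index_mem _⟩ = 0) → f = 0)
    (H : Subgroup (PresentedGroup R)) (hH : H.FiniteIndex) : b1 H ≤ d := by
  let π : FreeGroup (Fin d) →* PresentedGroup R := PresentedGroup.mk R
  have hπ : Function.Surjective π := PresentedGroup.mk_surjective R
  let N : Subgroup (FreeGroup (Fin d)) := (H.comap π).normalCore
  have hN : N.Normal := inferInstance
  have hfi : (H.comap π).FiniteIndex :=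
    ⟨by rw [Subgroup.index_comap_of_surjective H hπ]; exact hH.index_ne_zero⟩
  have hNf : N.FiniteIndex := inferInstance
  have hNH : ∀ n ∈ N, π n ∈ H := fun n hn =>
    Subgroup.normalCore_le (H.comap π) hn
  have hRN : R ⊆ N := by
    intro r hr g
    change π (g * r * g⁻¹) ∈ H
    have h1 : π r = 1 := PresentedGroup.one_of_mem hr
    rw [map_mul, map_mul, h1, mul_one, map_inv, mul_inv_cancel]
    exact H.one_mem
  -- homomorphisms on `H`
  have key : ∀ f ∈ H718R3.CZ.HQ H,
      (∀ x : Fin d, f ⟨π (FreeGroup.of x ^ N.index), hNH _ (N.pow_index_mem _)⟩ = 0) →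
      f = 0 := by
    intro f hf hfx
    let φ : N → ℚ := fun n => f ⟨π n, hNH n n.2⟩
    have hφ : φ ∈ H718R3.CZ.HQ N := by
      intro a b
      change f ⟨π (a * b), _⟩ = f ⟨π a, _⟩ + f ⟨π b, _⟩
      rw [← hf]
      rfl
    have hφ0 : φ = 0 := by
      apply hR N hN hNf hRN φ hφ _ hfx
      intro x hx
      change f ⟨π x, _⟩ = 0
      have h1 : (⟨π x, hNH x x.2⟩ : H) = 1 := Subtype.ext (PresentedGroup.one_of_mem hx)
      rw [h1, H718R3.CZ.HQ.one hf]
    funext h
    obtain ⟨y, hy⟩ := hπ h
    have h1 := congrFun hφ0 ⟨y ^ N.index, N.pow_index_mem y⟩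
    change f ⟨π (y ^ N.index), _⟩ = 0 at h1
    have h2 : (⟨π (y ^ N.index), hNH _ (N.pow_index_mem y)⟩ : H) = h ^ N.index := by
      apply Subtype.ext
      change π (y ^ N.index) = (h : PresentedGroup R) ^ N.index
      rw [map_pow, hy]
    rw [h2, H718R3.CZ.HQ.pow hf] at h1
    have h3 : (N.index : ℚ) ≠ 0 := by
      exact_mod_cast Subgroup.FiniteIndex.index_ne_zero (H := N)
    exact (mul_eq_zero.mp h1).resolve_left h3
  -- the dual space
  let V := ℚ ⊗[ℤ] Additive (Abelianization H)
  let ι : H → V := fun h => (1 : ℚ) ⊗ₜ[ℤ] Additive.ofMul (Abelianization.of h)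
  have hι : ∀ a b, ι (a * b) = ι a + ι b := by
    intro a b
    change (1 : ℚ) ⊗ₜ[ℤ] Additive.ofMul (Abelianization.of (a * b)) = _
    rw [map_mul, ofMul_mul, TensorProduct.tmul_add]
  let Φ : Module.Dual ℚ V →ₗ[ℚ] (Fin d → ℚ) :=
    { toFun := fun l x => l (ι ⟨π (FreeGroup.of x ^ N.index), hNH _ (N.pow_index_mem _)⟩)
      map_add' := fun _ _ => rfl
      map_smul' := fun _ _ => rfl }
  have hΦ : Function.Injective Φ := by
    rw [← LinearMap.ker_eq_bot, LinearMap.ker_eq_bot']
    intro l hl
    have h1 : (fun h => l (ι h)) = 0 := by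
      apply key
      · intro a b
        change l (ι (a * b)) = l (ι a) + l (ι b)
        rw [hι, map_add]
      · intro x
        exact congrFun hl x
    apply LinearMap.ext
    intro v
    induction v using TensorProduct.induction_on with
    | zero => simp
    | add a b ha hb => rw [map_add, map_add, ha, hb]
    | tmul q a =>
      obtain ⟨h, rfl⟩ : ∃ h : H, Additive.ofMul (Abelianization.of h) = a := by
        obtain ⟨h, hh⟩ := QuotientGroup.mk_surjective (Additive.toMul a)
        exact ⟨h, congrArg Additive.ofMul hh⟩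
      have h2 : q ⊗ₜ[ℤ] Additive.ofMul (Abelianization.of h) = q • ι h := by
        change _ = q • ((1 : ℚ) ⊗ₜ[ℤ] _)
        rw [TensorProduct.smul_tmul', smul_eq_mul, mul_one]
      rw [h2, map_smul, map_smul]
      have h3 := congrFun h1 h
      change l (ι h) = 0 at h3
      rw [h3]
      rfl
  have hfd : Module.Finite ℚ (Module.Dual ℚ V) := Module.Finite.of_injective Φ hΦ
  have hfV : Module.Finite ℚ V := Module.finite_dual_iff ℚ |>.mp hfd
  change Module.rank ℚ V ≤ d
  rw [← Module.finrank_eq_rank, ← Subspace.dual_finrank_eq]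
  have h4 := LinearMap.finrank_le_finrank_of_injective hΦ
  rw [Module.finrank_fin_fun] at h4
  exact_mod_cast h4

/-- **Main theorem**: the negated form of Q1, with the bound 2. -/
theorem result : ∃ (G : Type) (_ : Group G), IsGSCharZero G ∧
    ∀ H : Subgroup G, H.FiniteIndex → b1 H ≤ 2 := by
  have h0 : (0 : ℝ) < 3 / 4 := by norm_num
  have h1 : (3 / 4 : ℝ) < 1 := by norm_num
  obtain ⟨R, hR1, hR2⟩ := H718R3.CZ.exists_relators (X := Fin 2) (3 / 4) h0 h1 (1 / 4)
    (by norm_num) (term (3 / 4)) (term_nonneg h0) (term_le h0 h1)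
  refine ⟨PresentedGroup R, inferInstance, ⟨2, R, ⟨MulEquiv.refl _⟩, 3 / 4, h0, h1, ?_, ?_⟩, ?_⟩
  · exact summable_of_sum_le (fun r => term_nonneg h0 r.1) hR1
  · have h2 : ∑' r : R, term (3 / 4) r.1 ≤ 1 / 4 :=
      Real.tsum_le_of_sum_le (fun r => term_nonneg h0 r.1) hR1
    push_cast
    linarith
  · intro H hH
    have := b1_le R hR2 H hH
    exact_mod_cast this

end Pool.Agent.Results.MP_09d285_al.BoundedVirtualBetti
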